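import Pool.Agent.Q260.DS.All
import Pool.Agent.Q184.DT.A
import Pool.Agent.Q182.DT.IF
import Pool.Agent.Q251.DT.ST
import Pool.Agent.Q176.DT.LF
import Pool.Agent.Q176.DT.UQ
import Pool.Agent.Q177.DT.BW
import Pool.Agent.Q177.DT.FW
import Pool.Agent.Q237.DT.LI
import Pool.Agent.Q237.DT.DD

set_option autoImplicit false

/-!
# Project DT: all lemmas
-/

namespace Pool.Agent.Q260.DT

theorem om : S_OM := Q184.DT.t_OM
theorem ifr : S_IF := Q182.DT.t_IF
theorem kb : S_KB := Q184.DT.t_KB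
theorem sz : S_SZ := Q184.DT.t_SZ
theorem st : S_ST := Q251.DT.t_ST sz
theorem lf : S_LF := Q176.DT.t_LF DS.rt Q144.DJ.t_TC sz
theorem uq : S_UQ := Q176.DT.t_UQ ifr kb sz lf
theorem bw : S_BW := Q177.DT.t_BW om uq st lf sz
theorem fw : S_FW := Q177.DT.t_FW DS.lb st sz
theorem li : S_LI := Q237.DT.t_LI DS.lb fw DS.rt
theorem dd : S_DD := Q237.DT.t_DD bw fw

end Pool.Agent.Q260.DT
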