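import Pool.Agent.Q260.DT.Stm
import Pool.Agent.Q260.DS.Stm3

set_option autoImplicit false

/-!
# Project DT: instances
-/

namespace Pool.Agent.Q260.DT

open Complex Filter Topology Metric Set MeasureTheory
open Pool.Agent.Q260.DS (Sys gp)
open Pool.Agent.W169.HF H353.E H353.F Q240.GS Q240.OW
open scoped ComplexConjugate

/-- JOB RI: every function of the class `WP`. Proof. `sys`: `DS.sp` (`Pool/Agent/Q260/DS/AllP.lean`, theorem `sp : S_SP`) with `Y = 0`, `M = max ‖μ j‖`.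
`sym`: `WP.fe` (`1 - conj (1/2 + z) = 1/2 + (- conj z)`.. `‖X (1/2 + z)‖ = ‖X (1/2 - conj z)‖`). `nz`: `WP.nz`. `lim`: `el N μ y = Re` of the logarithmic derivative of
the gamma factors at `3/2 + i y`, `≥ (m/2) log |y| - C` (digamma: `logDeriv Gamma s = log s + O(1/|s|)`; the proof of `S_SY`/`S_SP`, `Q210/DS/SY.lean`, `Q285/DS/SP.lean`, has
bounds between `el` and `log cnd`). `rate`: `log (gp r N μ y) = - (π m / 4) |y| + a log (1 + |y|) + O(1)` with one real number `a` (Stirling; or: for `y ≥ y1` the derivative of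
`log ‖gaf N μ (1/2 + i y)‖` (or whichever point defines `gg`, see `DS/Stm2.lean`) is `- Im` of the logarithmic derivative, `= - π m / 4 + O(1/y)`), and
`|log (1 + |y + v|) - log (1 + |y|)| ≤ log (1 + |v|) ≤ η |v| + C`. -/
def S_RI : Prop := ∀ (m r : ℕ) (B N : ℝ) (μ : Fin m → ℂ) (X : ℂ → ℂ), 1 ≤ m → 1 ≤ B → WP r B N μ X →
  Rl (Real.pi * m / 4) (fun z => X (1 / 2 + z)) (el N μ) (gp r N μ)

/-- JOB RX: zeta. Proof. `X s = XX (s - 1/2)` is in `WP 1 B 1 ![0]` (`XX_eq` in `H24R2/JP/Zeros.lean`, `zeta` is bounded above and below for `Re s ≥ 2`, functional equation `JP.XX_neg`,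
`JP.XX_conj`, growth as in `H24R2/JP/Grow.lean`; see the other instances of `WP` for `Slow`), then `S_RI`; `el ≤ log y` for large `y` (it is `(1/2) log y + O(1)`). -/
def S_RX : Prop := ∃ l g : ℝ → ℝ, Rl (Real.pi / 4) Pool.Agent.H24R2.JP.XX l g ∧
  ∃ C : ℝ, 3 ≤ C ∧ ∀ y : ℝ, C ≤ y → l y ≤ Real.log y

/-- JOB BG: no zeros far to the right. For `zeta`: `F z = XX (z + a) + u XX (z - a)` has no zeros with `Re z > 1` and `Im z ≥ C`. Proof. `Re z > 2`: `XX w = HH w ζ(1/2 + w)` in the upper half plane,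
`‖XX (z - a)‖ < ‖XX (z + a)‖`: for `0 < a ≤ 1`: `|ζ(1/2 + z - a)| / |ζ(1/2 + z + a)| ≤ ζ(3/2) ζ(3/2) =: c`, and `‖HH (z - a)‖ / ‖HH (z + a)‖ = exp (- ∫_{-a}^{a} Re (logDeriv HH (z + t)) dt)`, where
`Re logDeriv HH w = Re (ld w) ≥ (1/2) log |w| - C` for `Re w ≥ 1`, `|w|` large (`H24R2.JP.StirAux.ld`, `SG.GamAux.ld_bound`); so for `|z|` large the quotient is `≤ c exp (- 2 a ((1/2) log |z| - C - 1)) < 1`. The range
`1 < Re z ≤ 2` is the same (`Re (1/2 + z - a) > 1/2`!: use instead `1 < Re z`: `Re (1/2 + z - a) > 3/2 - a`, so this needs `a ≤ 2/5`, or use the bound `|ζ(1/2 + w)| ≤ C |w|^{1/2}`..). To be safe the statement is for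
`Re z ≥ 2` and `0 < a ≤ 1`. -/
def S_BG : Prop := ∀ (a : ℝ) (u : ℂ), 0 < a → a ≤ 1 → ‖u‖ = 1 → ∃ C : ℝ, ∀ z : ℂ, 2 ≤ z.re → C ≤ z.im →
  Fa Pool.Agent.H24R2.JP.XX a u z ≠ 0

end Pool.Agent.Q260.DT
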