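import Pool.Agent.Q260.DT.All
import Pool.Agent.Q260.DT.Stm2
import Pool.Agent.Q260.DJ.All

/-!
# Project DT: the final theorem for zeta, from `S_RX` and `S_BG`
-/

set_option autoImplicit false

open Complex Filter Topology

namespace Pool.Agent.Q260.DT.Fin

open Pool.Agent.H24R2.JP (XX)
open Pool.Agent.H24R2.JP.B1h (XX_diff XX_conj)
open Pool.Agent.H24R2.JP.Zer (XX_eq completed_zero)
open Pool.Agent.Q285.DJ (fin_iff fin_shift zeta_iff)
open Pool.Agent.Q260.DT (Fa)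
open scoped ComplexConjugate

/-- The Riemann function `ξ(s) = s (s - 1) Λ(s) / 2`. -/
noncomputable def xi (s : ℂ) : ℂ := s * (s - 1) / 2 * completedRiemannZeta₀ s + 1 / 2

/-- `ξ(s + a) + u ξ(s - a)`. -/
noncomputable def F (a : ℝ) (u s : ℂ) : ℂ := xi (s + a) + u * xi (s - a)

/-- For every `ε > 0` there are only finitely many zeros with `Re s > θ + ε`. -/
def AlmostFree (G : ℂ → ℂ) (θ : ℝ) : Prop :=
  ∀ ε : ℝ, 0 < ε → {s : ℂ | θ + ε < s.re ∧ G s = 0}.Finite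

/-- For every `ε > 0` the zeros with large imaginary part have `Re s ≤ θ + ε`. -/
def Upper (G : ℂ → ℂ) (θ : ℝ) : Prop :=
  ∀ ε : ℝ, 0 < ε → ∃ T : ℝ, ∀ s : ℂ, T ≤ s.im → G s = 0 → s.re ≤ θ + ε

lemma F_eq (a : ℝ) (u s : ℂ) : 8 * F a u s = Fa XX a u (s - 1 / 2) := by
  unfold F Fa xi XX
  ring_nf

lemma F_zero (a : ℝ) (u s : ℂ) : F a u s = 0 ↔ Fa XX a u (s - 1 / 2) = 0 := by
  rw [← F_eq]
  simp

lemma half_re : ((1 / 2 : ℂ)).re = 1 / 2 := by norm_num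
lemma half_im : ((1 / 2 : ℂ)).im = 0 := by norm_num

lemma im_ne {z : ℂ} (h : 0 < z.im) : z ≠ 0 := by
  rintro rfl
  exact lt_irrefl _ h

/-- zeros of zeta above the real axis -/
lemma zeta_XX {s : ℂ} (hs : 0 < s.im) (h : riemannZeta s = 0) : XX (s - 1 / 2) = 0 := by
  have hs0 : s ≠ 0 := im_ne hs
  have e : (1 / 2 + (s - 1 / 2) : ℂ) = s := by ring
  have hs1 : (1 - s : ℂ) ≠ 0 := by
    intro h1
    have : (1 - s : ℂ).im = 0 := by rw [h1, Complex.zero_im]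
    rw [Complex.sub_im, Complex.one_im] at this
    linarith
  rw [XX_eq (s - 1 / 2) (by rw [e]; exact hs0) (by rw [e]; exact hs1), e]
  rw [riemannZeta_def_of_ne_zero hs0] at h
  rcases div_eq_zero_iff.1 h with h1 | h1
  · rw [h1, mul_zero]
  · obtain ⟨n, hn⟩ := Complex.Gammaℝ_eq_zero_iff.1 h1
    rw [hn] at hs
    simp at hs

lemma XX_zeta' {s : ℂ} (h : XX (s - 1 / 2) = 0) : riemannZeta s = 0 := by
  have e : (1 / 2 + (s - 1 / 2) : ℂ) = s := by ring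
  obtain ⟨h1, -, h3⟩ := completed_zero _ h
  rw [e] at h1 h3
  rw [riemannZeta_def_of_ne_zero h1, h3, zero_div]

lemma XX_strip {z : ℂ} (hz : XX z = 0) : |z.re| ≤ 1 / 2 :=
  Pool.Agent.Q260.DJ.spl 0 z (by rw [iteratedDeriv_zero]; exact hz)

lemma free_iff (θ : ℝ) (hθ : 1 / 2 ≤ θ) : AlmostFree riemannZeta θ ↔
    ∀ ε : ℝ, 0 < ε → ∃ T : ℝ, ∀ z : ℂ, XX z = 0 → T ≤ z.im → z.re ≤ θ + ε - 1 / 2 := by
  unfold AlmostFree
  refine forall_congr' fun ε => forall_congr' fun hε => ?_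
  rw [fin_shift (G := XX), fin_iff XX_diff XX_conj (fun z hz => XX_strip hz)]
  intro s hs
  exact zeta_iff (by linarith)

lemma zeta_one_le {s : ℂ} (h : riemannZeta s = 0) : s.re < 1 := by
  by_contra hcon
  push Not at hcon
  exact riemannZeta_ne_zero_of_one_le_re hcon h

/-- The resonance. -/
noncomputable def res (a : ℝ) : ℂ := -cexp (I * ((Real.pi * a / 2 : ℝ) : ℂ))

lemma res_eq (a : ℝ) : res a = -cexp (2 * I * ((Real.pi / 4 * a : ℝ) : ℂ)) := by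
  unfold res
  congr 2
  push_cast
  ring

/-- the local dictionary -/
theorem dict (hX : S_RX) (a ε : ℝ) (u : ℂ) (ha : 0 < a) (hε : 0 < ε) (hu : ‖u‖ = 1) :
    ∃ C : ℝ, 3 ≤ C ∧
    (u ≠ res a → ∀ (z : ℂ) (σ : ℝ), XX z = 0 → C ≤ z.im → 0 ≤ σ → σ + a + ε ≤ z.re →
      ∃ w : ℂ, Fa XX a u w = 0 ∧ σ < w.re ∧ w.re ≤ 2 ∧ |w.im - z.im| ≤ C * Real.log z.im) ∧
    ∀ (z : ℂ) (σ : ℝ), Fa XX a u z = 0 → C ≤ z.im → 0 ≤ σ → σ + ε ≤ z.re → z.re ≤ 2 →
      ∃ w : ℂ, XX w = 0 ∧ σ + a < w.re ∧ |w.im - z.im| ≤ C := by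
  obtain ⟨l, g, hR, C1, hC1, hl⟩ := hX
  obtain ⟨C, hC, h1, h2⟩ := dd (Real.pi / 4) XX l g hR a ε u ha hε hu
  refine ⟨max C C1, hC1.trans (le_max_right _ _), fun hne z σ hz hzC hσ hzσ => ?_,
    fun z σ hz hzC hσ hzσ hz2 => ?_⟩
  · obtain ⟨w, hw1, hw2, hw3, hw4⟩ := h1 (by rw [← res_eq]; exact hne) z σ hz
      ((le_max_left _ _).trans hzC) hσ hzσ
    refine ⟨w, hw1, hw2, hw3, hw4.trans ?_⟩
    have h5 := hl z.im ((le_max_right _ _).trans hzC)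
    have h6 : (0 : ℝ) ≤ Real.log z.im := Real.log_nonneg (by
      have := (le_max_right C C1).trans hzC
      linarith)
    calc C * l z.im ≤ C * Real.log z.im := mul_le_mul_of_nonneg_left h5 (by linarith)
      _ ≤ max C C1 * Real.log z.im := mul_le_mul_of_nonneg_right (le_max_left _ _) h6
  · obtain ⟨w, hw1, hw2, hw3⟩ := h2 z σ hz ((le_max_left _ _).trans hzC) hσ hzσ hz2
    exact ⟨w, hw1, hw2, hw3.trans (le_max_left _ _)⟩

lemma log_small (C T : ℝ) : ∃ T' : ℝ, 1 ≤ T' ∧ ∀ t : ℝ, T' ≤ t → T + C * Real.log t ≤ t := by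
  obtain ⟨T1, h1⟩ := Pool.Agent.Q285.DJ.log_small C T
  refine ⟨max T1 1, le_max_right _ _, fun t ht => ?_⟩
  have := h1 t ((le_max_left _ _).trans ht)
  linarith

/-- symmetry about the line -/
lemma F_symm (a : ℝ) (u z : ℂ) (hu : ‖u‖ = 1) : Fa XX a u z = 0 ↔ Fa XX a u (-conj z) = 0 := by
  have h1 : u * conj u = 1 := by
    rw [Complex.mul_conj, Complex.normSq_eq_norm_sq, hu]
    norm_num
  have e : Fa XX a u (-conj z) = u * conj (Fa XX a u z) := by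
    unfold Fa
    rw [map_add, map_mul, ← XX_conj, ← XX_conj, mul_add, ← mul_assoc, h1, one_mul]
    rw [← Pool.Agent.H24R2.JP.B1h.XX_neg (conj (z + a)), ← Pool.Agent.H24R2.JP.B1h.XX_neg (conj (z - a))]
    rw [map_add, map_sub, Complex.conj_ofReal, add_comm]
    congr 2 <;> ring_nf
  have hu0 : u ≠ 0 := by
    rintro rfl
    simp at hu
  rw [e]
  constructor
  · intro h
    rw [h, map_zero, mul_zero]
  · intro h
    rcases mul_eq_zero.1 h with h2 | h2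
    · exact absurd h2 hu0
    · rw [← Complex.conj_conj (Fa XX a u z), h2, map_zero]

theorem fwd (hX : S_RX) (hB : S_BG) (a : ℝ) (u : ℂ) (ha : 0 < a) (ha1 : a ≤ 1) (hu : ‖u‖ = 1) (θ : ℝ)
    (hθ : 1 / 2 ≤ θ) (h : AlmostFree riemannZeta (θ + a)) : Upper (F a u) θ := by
  intro ε hε
  obtain ⟨T, hT⟩ := (free_iff (θ + a) (by linarith)).1 h (ε / 2) (by linarith)
  obtain ⟨C, hC, -, h2⟩ := dict hX a (ε / 2) u ha (by linarith) hu
  obtain ⟨C3, h3⟩ := hB a u ha ha1 hu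
  refine ⟨max (max C C3) (T + C), fun s hs hs0 => ?_⟩
  have hsC : C ≤ s.im := ((le_max_left _ _).trans (le_max_left _ _)).trans hs
  have hsC3 : C3 ≤ s.im := ((le_max_right _ _).trans (le_max_left _ _)).trans hs
  have hsT : T + C ≤ s.im := (le_max_right _ _).trans hs
  rw [F_zero] at hs0
  have him : (s - 1 / 2 : ℂ).im = s.im := by rw [Complex.sub_im, half_im, sub_zero]
  have hre : (s - 1 / 2 : ℂ).re = s.re - 1 / 2 := by rw [Complex.sub_re, half_re]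
  by_contra hcon
  push Not at hcon
  rcases le_or_gt 2 (s - 1 / 2 : ℂ).re with h4 | h4
  · exact h3 _ h4 (by rw [him]; exact hsC3) hs0
  obtain ⟨w, hw1, hw2, hw3⟩ := h2 (s - 1 / 2) (θ + ε / 2 - 1 / 2) hs0 (by rw [him]; exact hsC) (by linarith)
    (by rw [hre]; linarith) h4.le
  rw [him] at hw3
  have h5 := (abs_le.1 hw3).1
  have h6 := hT w hw1 (by linarith)
  linarith

theorem bwd (hX : S_RX) (a : ℝ) (u : ℂ) (ha : 0 < a) (hu : ‖u‖ = 1) (hne : u ≠ res a) (θ : ℝ)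
    (hθ : 1 / 2 ≤ θ) (h : Upper (F a u) θ) : AlmostFree riemannZeta (θ + a) := by
  rw [free_iff _ (by linarith)]
  intro ε hε
  obtain ⟨T, hT⟩ := h (ε / 2) (by linarith)
  obtain ⟨C, hC, h1, -⟩ := dict hX a (ε / 2) u ha (by linarith) hu
  obtain ⟨T', hT'1, hT'⟩ := log_small C T
  refine ⟨max C T', fun z hz hzT => ?_⟩
  by_contra hcon
  push Not at hcon
  obtain ⟨w, hw1, hw2, -, hw3⟩ := h1 hne z (θ + ε / 2 - 1 / 2) hz ((le_max_left _ _).trans hzT) (by linarith)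
    (by linarith)
  have h4 := hT' z.im ((le_max_right _ _).trans hzT)
  have h5 := (abs_le.1 hw3).1
  have h7 : T ≤ w.im := by linarith
  have h8 := hT (w + 1 / 2) (by rw [Complex.add_im, half_im, add_zero]; exact h7)
    (by rw [F_zero, add_sub_cancel_right]; exact hw1)
  rw [Complex.add_re, half_re] at h8
  linarith

theorem line (hX : S_RX) (hB : S_BG) (a : ℝ) (u : ℂ) (ha : 0 < a) (ha1 : a ≤ 1) (hu : ‖u‖ = 1) (θ : ℝ)
    (hθ : 1 / 2 ≤ θ) (hθa : θ < 1 / 2 + a) (h : AlmostFree riemannZeta θ) :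
    ∃ T : ℝ, ∀ s : ℂ, T ≤ s.im → F a u s = 0 → s.re = 1 / 2 := by
  obtain ⟨l, g, hR, C1, hC1, hl⟩ := hX
  set θ1 : ℝ := (θ - 1 / 2 + a) / 2 with hθ1
  obtain ⟨T1, hT1⟩ := (free_iff θ hθ).1 h ((1 / 2 + a - θ) / 2) (by linarith)
  obtain ⟨T2, hT2⟩ := li (Real.pi / 4) XX l g hR a θ1 T1 u (by linarith) (by linarith) hu
    (fun z hz hzT hz0 => by
      have := hT1 z hz0 hzT
      linarith)
  obtain ⟨C3, h3⟩ := hB a u ha ha1 hu
  have key : ∀ z : ℂ, max T2 C3 ≤ z.im → Fa XX a u z = 0 → z.re ≤ 0 := by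
    intro z hz hz0
    by_contra hcon
    push Not at hcon
    rcases le_or_gt 2 z.re with h4 | h4
    · exact h3 z h4 ((le_max_right _ _).trans hz) hz0
    · exact hT2 z hcon h4.le ((le_max_left _ _).trans hz) hz0
  refine ⟨max T2 C3, fun s hs hs0 => ?_⟩
  rw [F_zero] at hs0
  have him : (s - 1 / 2 : ℂ).im = s.im := by rw [Complex.sub_im, half_im, sub_zero]
  have hre : (s - 1 / 2 : ℂ).re = s.re - 1 / 2 := by rw [Complex.sub_re, half_re]
  have h5 := key _ (by rw [him]; exact hs) hs0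
  have h6 := key (-conj (s - 1 / 2)) (by rw [Complex.neg_im, Complex.conj_im, neg_neg, him]; exact hs)
    ((F_symm a u _ hu).1 hs0)
  rw [Complex.neg_re, Complex.conj_re, hre] at h6
  rw [hre] at h5
  linarith

/-- Q1 of MP_5a4862_nt. -/
def Q1 : Prop := ∃ σ₀ : ℝ, 1 / 2 < σ₀ ∧ σ₀ < 1 ∧ ∀ s : ℂ, σ₀ ≤ s.re → riemannZeta s ≠ 0

lemma q1_free : Q1 ↔ ∃ θ : ℝ, 1 / 2 ≤ θ ∧ θ < 1 ∧ AlmostFree riemannZeta θ := by
  constructor
  · rintro ⟨σ, h1, h2, h3⟩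
    refine ⟨σ, h1.le, h2, fun ε hε => Set.Finite.subset Set.finite_empty ?_⟩
    rintro s ⟨hs1, hs2⟩
    exact absurd hs2 (h3 s (by linarith))
  · rintro ⟨θ, h1, h2, h3⟩
    have h4 := h3 ((1 - θ) / 2) (by linarith)
    set S : Set ℂ := {s : ℂ | θ + (1 - θ) / 2 < s.re ∧ riemannZeta s = 0} with hS
    obtain ⟨b, hb1, hb2⟩ : ∃ b : ℝ, b < 1 ∧ ∀ s ∈ S, s.re ≤ b := by
      rcases S.eq_empty_or_nonempty with he | he
      · refine ⟨0, by norm_num, fun s hs => ?_⟩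
        rw [he] at hs
        exact absurd hs (Set.notMem_empty s)
      · obtain ⟨w, hw1, hw2⟩ := Set.exists_max_image S (fun s => s.re) h4 he
        exact ⟨w.re, zeta_one_le hw1.2, hw2⟩
    have e1 : max b ((1 + θ) / 2) < 1 := max_lt hb1 (by linarith)
    have e2 := le_max_left b ((1 + θ) / 2)
    have e3 := le_max_right b ((1 + θ) / 2)
    refine ⟨(max b ((1 + θ) / 2) + 1) / 2, by linarith, by linarith, fun s hs h0 => ?_⟩
    have h5 := hb2 s ⟨by linarith, h0⟩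
    linarith

end Pool.Agent.Q260.DT.Fin
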