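import Pool.Agent.Q260.DT.Fin
import Pool.Agent.Q224.DT.RX
import Pool.Agent.Q224.DT.RI
import Pool.Agent.Q224.DT.BG

/-!
# Project DT: the hypotheses `S_RX`, `S_BG` hold; the threshold
-/

set_option autoImplicit false

open Complex Filter Topology

namespace Pool.Agent.Q260.DT.Inst

open Pool.Agent.Q260.DT Pool.Agent.Q260.DT.Fin
open Pool.Agent.H24R2.JP (XX)
open scoped ComplexConjugate

theorem hRI : S_RI := Pool.Agent.Q224.DTR.t_RI
theorem hRX : S_RX := Pool.Agent.Q224.DTX.t_RX hRI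
theorem hBG : S_BG := Pool.Agent.Q224.DTG.t_BG

/-- From some height on all zeros are on the critical line. -/
def Line (G : ℂ → ℂ) : Prop := ∃ T : ℝ, ∀ s : ℂ, T ≤ s.im → G s = 0 → s.re = 1 / 2

/-- For every `ε > 0` the zeros with large imaginary part satisfy `|Re s - 1/2| ≤ δ + ε`. -/
def Within (G : ℂ → ℂ) (δ : ℝ) : Prop :=
  ∀ ε : ℝ, 0 < ε → ∃ T : ℝ, ∀ s : ℂ, T ≤ s.im → G s = 0 → |s.re - 1 / 2| ≤ δ + ε

lemma line_within {G : ℂ → ℂ} (h : Line G) : Within G 0 := by
  intro ε hε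
  obtain ⟨T, hT⟩ := h
  refine ⟨T, fun s hs h0 => ?_⟩
  rw [hT s hs h0, sub_self, abs_zero]
  linarith

lemma within_iff (a δ : ℝ) (u : ℂ) (hu : ‖u‖ = 1) : Within (F a u) δ ↔ Upper (F a u) (1 / 2 + δ) := by
  constructor
  · intro h ε hε
    obtain ⟨T, hT⟩ := h ε hε
    refine ⟨T, fun s hs h0 => ?_⟩
    have := (abs_le.1 (hT s hs h0)).2
    linarith
  · intro h ε hε
    obtain ⟨T, hT⟩ := h ε hε
    refine ⟨T, fun s hs h0 => abs_le.2 ⟨?_, ?_⟩⟩
    · have h1 : F a u (1 - conj s) = 0 := by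
        rw [F_zero, F_symm a u _ hu] at *
        have e : (-conj (1 - conj s - 1 / 2) : ℂ) = s - 1 / 2 := by
          simp only [map_sub, map_one, Complex.conj_conj, map_div₀, map_ofNat]
          ring
        rw [e]
        rwa [← F_symm a u _ hu] at h0
      have h2 := hT (1 - conj s) (by
        rw [Complex.sub_im, Complex.one_im, Complex.conj_im]
        linarith) h1
      rw [Complex.sub_re, Complex.one_re, Complex.conj_re] at h2
      linarith
    · have := hT s hs h0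
      linarith

/-- zeta is `AlmostFree 1` -/
lemma free_one : AlmostFree riemannZeta 1 := by
  intro ε hε
  refine Set.Finite.subset Set.finite_empty ?_
  rintro s ⟨h1, h2⟩
  exact absurd h2 (riemannZeta_ne_zero_of_one_le_re (by linarith))

lemma free_mono {θ θ' : ℝ} (h : θ ≤ θ') (hf : AlmostFree riemannZeta θ) : AlmostFree riemannZeta θ' :=
  fun ε hε => (hf ε hε).subset (fun s hs => ⟨by have := hs.1; linarith, hs.2⟩)

lemma res_inj {a b : ℝ} (ha : 0 < a) (ha1 : a ≤ 1) (hb : 0 < b) (hb1 : b ≤ 1) (h : res a = res b) : a = b := by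
  unfold res at h
  have h1 := neg_injective h
  have h2 := congrArg Complex.re h1
  rw [mul_comm I, mul_comm I, Complex.exp_ofReal_mul_I_re, Complex.exp_ofReal_mul_I_re] at h2
  have hp := Real.pi_pos
  have h3 := Real.injOn_cos ⟨by positivity, by nlinarith⟩ ⟨by positivity, by nlinarith⟩ h2
  have h4 : Real.pi * a = Real.pi * b := by linarith
  exact mul_left_cancel₀ hp.ne' h4

lemma one_ne_res {a : ℝ} (ha : 0 < a) (ha1 : a ≤ 1) : (1 : ℂ) ≠ res a := by
  intro h
  unfold res at h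
  have h2 := congrArg Complex.re h
  rw [Complex.neg_re, mul_comm I, Complex.exp_ofReal_mul_I_re, Complex.one_re] at h2
  have hp := Real.pi_pos
  have := Real.cos_nonneg_of_neg_pi_div_two_le_of_le (x := Real.pi * a / 2) (by nlinarith) (by nlinarith)
  linarith

lemma neg_one_ne_res {a : ℝ} (ha : 0 < a) (ha1 : a ≤ 1) : (-1 : ℂ) ≠ res a := by
  intro h
  unfold res at h
  have h1 := neg_injective h
  have h2 := congrArg Complex.im h1
  rw [mul_comm I, Complex.exp_ofReal_mul_I_im, Complex.one_im] at h2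
  have hp := Real.pi_pos
  have := Real.sin_pos_of_pos_of_lt_pi (x := Real.pi * a / 2) (by positivity) (by nlinarith)
  linarith

/-- the exact threshold -/
theorem threshold (u : ℂ) (hu : ‖u‖ = 1) (θ : ℝ) (hθ : 1 / 2 ≤ θ) :
    AlmostFree riemannZeta θ ↔ ∀ a : ℝ, θ - 1 / 2 < a → a ≤ 1 → Line (F a u) := by
  constructor
  · intro h a ha ha1
    exact line hRX hBG a u (by linarith) ha1 hu θ hθ (by linarith) h
  · intro h
    rcases le_or_gt 1 θ with h1 | h1
    · exact free_mono h1 free_one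
    intro ε hε
    -- a value of `a` in `(θ - 1/2, θ - 1/2 + ε)` with `u ≠ res a`
    obtain ⟨a, ha1, ha2, ha3, hne⟩ : ∃ a : ℝ, θ - 1 / 2 < a ∧ a < θ - 1 / 2 + ε ∧ a ≤ 1 ∧ u ≠ res a := by
      set a1 : ℝ := θ - 1 / 2 + min ε (1 / 2) / 2 with ha1
      set a2 : ℝ := θ - 1 / 2 + min ε (1 / 2) / 3 with ha2
      have hm : 0 < min ε (1 / 2) := lt_min hε (by norm_num)
      have hm1 := min_le_left ε (1 / 2)
      have hm2 := min_le_right ε (1 / 2)
      by_cases hr : u = res a1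
      · refine ⟨a2, by linarith, by linarith, by linarith, fun h3 => ?_⟩
        have := res_inj (a := a1) (b := a2) (by linarith) (by linarith) (by linarith) (by linarith)
          (hr.symm.trans h3)
        linarith
      · exact ⟨a1, by linarith, by linarith, by linarith, hr⟩
    have h2 : Upper (F a u) (1 / 2) := by
      have := (within_iff a 0 u hu).1 (line_within (h a ha1 ha3))
      rwa [add_zero] at this
    have h3 := bwd hRX a u (by linarith) hu hne (1 / 2) le_rfl h2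
    refine (h3 (θ + ε - 1 / 2 - a) (by linarith)).subset (fun s hs => ⟨?_, hs.2⟩)
    have := hs.1
    linarith

/-- Q1 of MP_5a4862_nt -/
theorem q1_line (u : ℂ) (hu : ‖u‖ = 1) : Q1 ↔ ∃ a : ℝ, 0 < a ∧ a < 1 / 2 ∧ u ≠ res a ∧ Line (F a u) := by
  rw [q1_free]
  constructor
  · rintro ⟨θ, h1, h2, h3⟩
    set a1 : ℝ := (θ - 1 / 2 + 1 / 2) / 2 + θ / 2 - 1 / 4 - (θ - 1 / 2) / 2 with ha1
    set a2 : ℝ := θ - 1 / 2 + 2 * (1 - θ) / 3 with ha2
    set a3 : ℝ := θ - 1 / 2 + (1 - θ) / 3 with ha3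
    by_cases hr : u = res a2
    · refine ⟨a3, by linarith, by linarith, fun h4 => ?_, ?_⟩
      · have := res_inj (a := a2) (b := a3) (by linarith) (by linarith) (by linarith) (by linarith)
          (hr.symm.trans h4)
        linarith
      · exact line hRX hBG a3 u (by linarith) (by linarith) hu θ h1 (by linarith) h3
    · exact ⟨a2, by linarith, by linarith, hr,
        line hRX hBG a2 u (by linarith) (by linarith) hu θ h1 (by linarith) h3⟩
  · rintro ⟨a, h1, h2, h3, h4⟩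
    have h5 : Upper (F a u) (1 / 2) := by
      have := (within_iff a 0 u hu).1 (line_within h4)
      rwa [add_zero] at this
    exact ⟨1 / 2 + a, by linarith, by linarith, bwd hRX a u h1 hu h3 (1 / 2) le_rfl h5⟩

/-- the same with zeros in a narrower strip -/
theorem q1_within (a : ℝ) (u : ℂ) (ha : 0 < a) (ha1 : a < 1 / 2) (hu : ‖u‖ = 1) (hne : u ≠ res a) :
    Q1 ↔ ∃ δ : ℝ, 0 ≤ δ ∧ δ < 1 / 2 - a ∧ Within (F a u) δ := by
  rw [q1_free]
  constructor
  · rintro ⟨θ, h1, h2, h3⟩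
    refine ⟨max (θ - 1 / 2 - a) 0, le_max_right _ _, max_lt (by linarith) (by linarith), ?_⟩
    rw [within_iff a _ u hu]
    refine fwd hRX hBG a u ha (by linarith) hu _ (by linarith [le_max_right (θ - 1 / 2 - a) 0]) ?_
    exact free_mono (by linarith [le_max_left (θ - 1 / 2 - a) 0]) h3
  · rintro ⟨δ, h1, h2, h3⟩
    rw [within_iff a _ u hu] at h3
    exact ⟨1 / 2 + δ + a, by linarith, by linarith, bwd hRX a u ha hu hne _ (by linarith) h3⟩

/-- the local dictionary, in the variable `s` -/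
theorem dict_s (a ε : ℝ) (u : ℂ) (ha : 0 < a) (ha1 : a ≤ 1) (hε : 0 < ε) (hu : ‖u‖ = 1) :
    ∃ C : ℝ, 3 ≤ C ∧
    (u ≠ res a → ∀ (ρ : ℂ) (σ : ℝ), riemannZeta ρ = 0 → C ≤ ρ.im → 1 / 2 ≤ σ → σ + a + ε ≤ ρ.re →
      ∃ w : ℂ, F a u w = 0 ∧ σ < w.re ∧ |w.im - ρ.im| ≤ C * Real.log ρ.im) ∧
    ∀ (w : ℂ) (σ : ℝ), F a u w = 0 → C ≤ w.im → 1 / 2 ≤ σ → σ + ε ≤ w.re →
      ∃ ρ : ℂ, riemannZeta ρ = 0 ∧ σ + a < ρ.re ∧ |ρ.im - w.im| ≤ C := by
  obtain ⟨C, hC, h1, h2⟩ := dict hRX a ε u ha hε hu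
  obtain ⟨C3, h3⟩ := hBG a u ha ha1 hu
  refine ⟨max C C3, hC.trans (le_max_left _ _), fun hne ρ σ hρ hρC hσ hρσ => ?_,
    fun w σ hw hwC hσ hwσ => ?_⟩
  · have him : (ρ - 1 / 2 : ℂ).im = ρ.im := by rw [Complex.sub_im, half_im, sub_zero]
    have hre : (ρ - 1 / 2 : ℂ).re = ρ.re - 1 / 2 := by rw [Complex.sub_re, half_re]
    have hCρ : C ≤ ρ.im := (le_max_left _ _).trans hρC
    obtain ⟨z, hz1, hz2, -, hz3⟩ := h1 hne (ρ - 1 / 2) (σ - 1 / 2) (zeta_XX (by linarith) hρ)
      (by rw [him]; exact hCρ) (by linarith) (by rw [hre]; linarith)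
    rw [him] at hz3
    refine ⟨z + 1 / 2, ?_, ?_, ?_⟩
    · rw [F_zero, add_sub_cancel_right]
      exact hz1
    · rw [Complex.add_re, half_re]
      linarith
    · rw [Complex.add_im, half_im, add_zero]
      refine hz3.trans (mul_le_mul_of_nonneg_right (le_max_left _ _) (Real.log_nonneg (by linarith)))
  · rw [F_zero] at hw
    have him : (w - 1 / 2 : ℂ).im = w.im := by rw [Complex.sub_im, half_im, sub_zero]
    have hre : (w - 1 / 2 : ℂ).re = w.re - 1 / 2 := by rw [Complex.sub_re, half_re]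
    rcases le_or_gt 2 (w - 1 / 2 : ℂ).re with h4 | h4
    · exact absurd hw (h3 _ h4 (by rw [him]; exact (le_max_right _ _).trans hwC))
    obtain ⟨z, hz1, hz2, hz3⟩ := h2 (w - 1 / 2) (σ - 1 / 2) hw
      (by rw [him]; exact (le_max_left _ _).trans hwC) (by linarith) (by rw [hre]; linarith) h4.le
    rw [him] at hz3
    refine ⟨z + 1 / 2, ?_, ?_, ?_⟩
    · exact XX_zeta' (by rw [add_sub_cancel_right]; exact hz1)
    · rw [Complex.add_re, half_re]
      linarith
    · rw [Complex.add_im, half_im, add_zero]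
      exact hz3.trans (le_max_left _ _)

end Pool.Agent.Q260.DT.Inst
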