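import Pool.Agent.Q260.DS.Stm

set_option autoImplicit false

/-!
# Project DT (helper260): the exact threshold for averages over two shifts

`f z = Λ(1/2 + z)` a completed L-function (zeta: `XX`), `F z = f (z + a) + u f (z - a)`, `a > 0`, `|u| = 1`. de Bruijn: if
the zeros of `f` lie in `|Re z| ≤ θ`, those of `F` lie in `|Re z| ≤ √(θ² - a²)`. Here: at large heights the exact
value is `max 0 (θ - a)`, with a local dictionary, for all `u` but one (the resonance `u = - exp (2 i ϑ a)`, `ϑ = π m / 4`, `m` the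
degree). So `F` has all but finitely many zeros on the line for `a > θ`, and not for `a < θ`.

Framework: `Sys` of project DS (`Pool/Agent/Q260/DS/Stm.lean`, all lemmas proved in `Pool/Agent/Q260/DS/All.lean`:
`DS.rt : S_RT`, `DS.gr : S_GR`, `DS.lb : S_LB`, ..; take them with the empty list, `It f [] = f`), one fixed `f`, heights `T → ∞`.
`Nm l g 0 T x = g T * exp (l T * x)` is the normal size at `x + I T`. Every job is one `Prop` `S_..`.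
-/

namespace Pool.Agent.Q260.DT

open Complex Filter Topology Metric Set MeasureTheory
open Pool.Agent.Q260.DS (Sys Nm EE NZ)
open scoped ComplexConjugate

/-- A fixed `Sys` with a symmetric absolute value, no zeros for `Re z > 1/2`, and vertical decay `exp (-ϑ |y|)`. -/
structure Rl (ϑ : ℝ) (f : ℂ → ℂ) (l g : ℝ → ℝ) : Prop where
  sys : ∃ K A y0 : ℝ, 1 ≤ K ∧ 1 ≤ A ∧ Sys K A y0 f l g
  sym : ∀ z : ℂ, ‖f (-(conj z))‖ = ‖f z‖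
  nz : ∀ z : ℂ, 1 / 2 < z.re → f z ≠ 0
  lim : Tendsto l atTop atTop
  th : 0 ≤ ϑ
  rate : ∀ η : ℝ, 0 < η → ∃ C : ℝ, ∀ y v : ℝ,
    |Real.log (g (y + v)) - Real.log (g y) + ϑ * (|y + v| - |y|)| ≤ η * |v| + C

/-- `f (z + a) + u f (z - a)`. -/
noncomputable def Fa (f : ℂ → ℂ) (a : ℝ) (u : ℂ) (z : ℂ) : ℂ := f (z + a) + u * f (z - a)

/-- The kernel of the inverse formula. -/
noncomputable def KF (a ω r v : ℝ) : ℂ :=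
  cexp (I * ω * (I * v + a - r)) / Complex.cosh (Real.pi * (v + I * r) / (2 * a))

/-- The phase. -/
noncomputable def uw (a ω : ℝ) : ℂ := cexp (-(2 * I * ((ω * a : ℝ) : ℂ)))

/-- JOB OM. Proof. `u = exp (i ψ)`, `ψ` in the interval `(2 ϑ a - π, 2 ϑ a + π]`; `ψ ≠ 2 ϑ a + π`; `ω = -ψ/(2a)`. (For instance
`ψ = 2 ϑ a + arg (u exp (-2 i ϑ a))`, and `arg = π` iff `u exp (-2 i ϑ a) = -1`.) -/
def S_OM : Prop := ∀ (ϑ a : ℝ) (u : ℂ), 0 < a → ‖u‖ = 1 → u ≠ -cexp (2 * I * ((ϑ * a : ℝ) : ℂ)) →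
  ∃ ω : ℝ, |ϑ + ω| < Real.pi / (2 * a) ∧ uw a ω = u

/-- JOB IF: the inverse formula. Proof. `Y z = exp (i ω z) f z`; residue theorem for `w ↦ Y (z + w) / sin (π (w - r)/(2a))` on the
rectangle `|Re w| ≤ a`, `|Im w| ≤ V` (or Cauchy's integral theorem for the function with the pole subtracted: `dslope`, or
`Complex.integral_boundary_rect_eq_zero_of_differentiableOn`): the only pole is `w = r`, residue `(2a/π) Y (z + r)`;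
on the sides `w = ± a + i v`: `sin = ± cosh (π (v + i r)/(2a))`; the horizontal sides tend to `0` (`κ < π/(2a)`). So
`4 a Y (z + r) = ∫ (Y (z + a + iv) + Y (z - a + iv)) / cosh (π (v + i r)/(2a)) dv`, and
`Y (z + a + iv) + Y (z - a + iv) = exp (i ω (z + a + iv)) Fa f a (uw a ω) (z + iv)`. -/
def S_IF : Prop := ∀ (f : ℂ → ℂ) (a ω κ : ℝ), Differentiable ℂ f → 0 < a → 0 ≤ κ → κ < Real.pi / (2 * a) →
  (∀ z : ℂ, ∃ C : ℝ, ∀ x v : ℝ, |x| ≤ a →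
    ‖f (z + x + I * v)‖ * Real.exp (-(ω * v)) ≤ C * Real.exp (κ * |v|)) →
  ∀ (z : ℂ) (r : ℝ), |r| < a → Integrable (fun v : ℝ => KF a ω r v * Fa f a (uw a ω) (z + I * v)) ∧
    f (z + r) = ((1 / (4 * a) : ℝ) : ℂ) * ∫ v : ℝ, KF a ω r v * Fa f a (uw a ω) (z + I * v)

/-- JOB KB. Proof. `|cosh (x + i y)|² = sinh² x + cos² y ≥ cos² y cosh² x`, `y = π r/(2a)`, `|y| < π/2`. -/
def S_KB : Prop := ∀ a ω r : ℝ, 0 < a → |r| < a → ∃ C : ℝ, ∀ v : ℝ,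
  ‖KF a ω r v‖ ≤ C * Real.exp (-(ω * v) - Real.pi * |v| / (2 * a))

/-- JOB SZ. Proof. `Sys.up` with `u = x`, `y = T + v`: `l (T + v) ≤ l T + K log (2 + |v|)` (`shift`), `exp (K R' log (2 + |v|)) ≤
exp (η |v|/2 + C)`, `l T ≥ 1` for `T ≥ C`; `rate` with `η/2`, and `|T + v| - |T| ≥ v`, `ϑ ≥ 0`. The second part: fixed `z`. -/
def S_SZ : Prop := ∀ (ϑ : ℝ) (f : ℂ → ℂ) (l g : ℝ → ℝ), Rl ϑ f l g → ∀ η R : ℝ, 0 < η → 0 ≤ R →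
  (∃ C : ℝ, 1 ≤ C ∧ ∀ T v x : ℝ, C ≤ T → |x| ≤ R → 1 ≤ l T ∧
    ‖f (x + I * ((T + v : ℝ) : ℂ))‖ ≤ g T * Real.exp (C * l T - ϑ * v + η * |v|)) ∧
  ∀ z : ℂ, ∃ C : ℝ, ∀ x v : ℝ, |x| ≤ R → ‖f (z + x + I * v)‖ ≤ C * Real.exp (-((ϑ - η) * |v|))

/-- JOB ST (from `S_SZ`): the strip. Proof. Maximum principle on the rectangle `|Re w| ≤ y`, `|Im w - T| ≤ W` for
`h w = f w * exp (κ ((w - i T)² - 4))`, `κ = B l T / W²`: on the vertical sides `‖f w‖ ≤ M` (`sym`) and `Re (..) ≤ 0`; on the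
horizontal sides `‖h‖ ≤ g T exp (C1 l T) exp (-κ W²) ≤ g T` (`S_SZ`, `v = ± W`, `B ≥ C1 + ..`); so `‖h‖ ≤ M + g T`, and at `x + i T`
`exp (κ (x² - 4)) ≥ exp (-4 κ) = exp (-4 B l T/W²)`; choose `W` with `4 B/W² ≤ η`. -/
def S_ST : Prop := ∀ (ϑ : ℝ) (f : ℂ → ℂ) (l g : ℝ → ℝ), Rl ϑ f l g → ∀ η : ℝ, 0 < η → ∃ W C : ℝ, 1 ≤ W ∧ 1 ≤ C ∧
  ∀ T y M : ℝ, C ≤ T → 0 ≤ y → y ≤ 2 → (∀ w : ℂ, w.re = y → |w.im - T| ≤ W → ‖f w‖ ≤ M) →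
  ∀ x : ℝ, |x| ≤ y → ‖f (x + I * T)‖ ≤ Real.exp (η * l T) * (M + g T)

/-- JOB LF (from `DS.S_RT`, `DJ.S_TC`, `S_SZ`): three circles for `F = Fa f a u`. Proof. For `Re w ≥ 7/4` and large height:
`F w = f (w + a) (1 + u f (w - a)/f (w + a))`, `‖f (w - a)/f (w + a)‖ ≤ C exp (-c l T)`, `c > 0` (`Sys.up`, `Sys.lo`:
`max |Re w - a| (3/2) ≤ Re w + a - c` with `c = min a (1/4)`.. ; the heights are equal), so `F w ≠ 0` and, with Cauchy's estimate for the quotient and `S_RT`,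
`‖logDeriv F w - l T‖ ≤ C`, and `‖F (3 + I T)‖` is `g T exp (l T (3 + a))` up to a constant. Now `DJ.S_TC` for
`w ↦ F w * exp (- l T * w)`, centre `3 + I T`, `ρ = 3 - θ`, `M = C' l T` (as in the proof of `DS.S_LB`, `Pool/Agent/Q210/DS/LB.lean`). -/
def S_LF : Prop := ∀ (ϑ : ℝ) (f : ℂ → ℂ) (l g : ℝ → ℝ), Rl ϑ f l g → ∀ (a : ℝ) (u : ℂ), 0 < a → ‖u‖ = 1 →
  ∃ C : ℝ, 1 ≤ C ∧ ∀ T θ δ : ℝ, C ≤ T → 0 ≤ θ → θ ≤ 1 → 0 < δ → δ ≤ 1 / 2 → NZ (Fa f a u) θ (T - 4) (T + 4) →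
  ∀ x : ℝ, θ + δ ≤ x → x ≤ 3 → Fa f a u (x + I * T) ≠ 0 ∧
    |Real.log (‖Fa f a u (x + I * T)‖ / Nm l g 0 T (x + a))| ≤ EE C (l T) δ

/-- JOB UQ (from `S_IF`, `S_KB`, `S_SZ`, `S_LF`): the inverse formula gives an upper bound for `f`. Proof. `r = a - δ`,
`w = z' + r + i v'`, `z' = x' + I T'`, `x' = Re w - a + δ ∈ [σ + δ, 3]`, `T' = Im w ∈ [T - W, T + W]`. In `S_IF` (its hypothesis: second part of
`S_SZ`; `κ = |ϑ + ω| + η < π/(2a)`): for `|v| ≤ V = K1 l T`: `S_LF` at the height `T' + v` (`θ = σ`):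
`‖Fa (x' + I (T'+v))‖ ≤ exp (EE) g (T'+v) exp (l (T'+v) (x' + a))`, `EE C (l ..) δ = o(l T)`, `l (T'+v) ≤ l T + K log (2 + |v| + W)`, `rate`: with
`S_KB` the integrand is at most `C exp (o(l T)) g T exp (l T (x' + a)) exp (-(ϑ + ω) v + η |v| - π |v|/(2a))`, integrable. For
`|v| > V`: first part of `S_SZ` (`v → v + T' - T`): at most `g T exp (C l T - (ϑ + ω) v + η |v| - π |v|/(2a))`, small for `K1` large. And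
`exp (l T (x' + a)) = exp (l T (Re w + δ))`. -/
def S_UQ : Prop := ∀ (ϑ : ℝ) (f : ℂ → ℂ) (l g : ℝ → ℝ), Rl ϑ f l g → ∀ a ω δ W : ℝ, 0 < a → a ≤ 1 →
  |ϑ + ω| < Real.pi / (2 * a) → 0 < δ → δ < a → δ ≤ 1 / 2 → 1 ≤ W → ∃ C : ℝ, 1 ≤ C ∧ ∀ T σ : ℝ, C ≤ T → 0 ≤ σ → σ ≤ 1 →
  NZ (Fa f a (uw a ω)) σ (T - C * l T) (T + C * l T) → ∀ w : ℂ, σ + a ≤ w.re → w.re ≤ 2 → |w.im - T| ≤ W →
  ‖f w‖ ≤ Real.exp (2 * δ * l T) * Nm l g 0 T w.re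

/-- JOB BW (from `S_OM`, `S_UQ`, `S_ST`, `S_LF`, `S_SZ`): backwards. Proof. If `a ≥ 1/2` or `Re z > 1/2`: `nz`. So `a < 1/2`, `σ < 1/2`.
`δ = min ε a / 16`. `S_UQ` gives `‖f w‖ ≤ exp (2 δ l T) Nm T (Re w)` for `σ + a ≤ Re w ≤ 2`, `|Im w - T| ≤ W`; `S_ST` with `y = σ + a`:
`‖f (x' + I T)‖ ≤ 2 exp (3 δ l T) Nm T (σ + a)` for `|x'| ≤ σ + a`. `z = x + a + I T`, `x ≥ σ + ε`, `F (x + I T) = f z + u f (x - a + I T)`: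
`‖F‖ ≥ exp (-δ l T) Nm T (x + a)` (`S_LF`), `‖f (x - a + I T)‖ ≤ exp (4 δ l T) Nm T (max |x - a| (σ + a))` (`sym` if `x < a`), and
`x + a - max |x - a| (σ + a) ≥ min (2 x) (min (2 a) ε) ≥ 16 δ`. So `f z ≠ 0`. -/
def S_BW : Prop := ∀ (ϑ : ℝ) (f : ℂ → ℂ) (l g : ℝ → ℝ), Rl ϑ f l g → ∀ (a ε : ℝ) (u : ℂ), 0 < a → 0 < ε → ‖u‖ = 1 →
  u ≠ -cexp (2 * I * ((ϑ * a : ℝ) : ℂ)) → ∃ C : ℝ, 1 ≤ C ∧ ∀ T σ : ℝ, C ≤ T → 0 ≤ σ →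
  NZ (Fa f a u) σ (T - C * l T) (T + C * l T) → ∀ z : ℂ, z.im = T → σ + a + ε ≤ z.re → f z ≠ 0

/-- JOB FW (from `DS.S_LB`, `S_ST`, `S_SZ`): forwards. Proof. `θ = min (σ + a) (1/2)`, `δ = min ε a / 16`. `DS.S_LB` (empty list) at the heights
`T' ∈ [T - W, T + W]`: `|log (‖f (x + I T')‖ / Nm T' x)| ≤ EE ≤ δ l T` for `θ + δ ≤ x ≤ 3` (for `x > 3` `Sys.up`, `Sys.lo`), so
`‖f w‖ ≤ exp (2 δ l T) Nm T (θ + δ)` for `Re w = θ + δ` (`rate`, `shift` for the change of the height), and `S_ST` with `y = θ + δ`.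
For `z = x + I T`, `σ + ε ≤ x ≤ 2`: `‖f (z + a)‖ ≥ exp (-δ l T) Nm T (x + a)` (`Sys.lo` if `x + a > 3`) and
`‖f (z - a)‖ ≤ exp (4 δ l T) Nm T (max |x - a| (θ + δ))` (`Sys.up` if `|x - a| > 3`), `x + a - max .. ≥ 15 δ`. -/
def S_FW : Prop := ∀ (ϑ : ℝ) (f : ℂ → ℂ) (l g : ℝ → ℝ), Rl ϑ f l g → ∀ (a ε : ℝ) (u : ℂ), 0 < a → 0 < ε → ‖u‖ = 1 →
  ∃ C : ℝ, 1 ≤ C ∧ ∀ T σ : ℝ, C ≤ T → 0 ≤ σ → (∀ w : ℂ, σ + a < w.re → |w.im - T| ≤ C → f w ≠ 0) →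
  ∀ z : ℂ, z.im = T → σ + ε ≤ z.re → z.re ≤ 2 → Fa f a u z ≠ 0

/-- JOB LI (from `DS.S_LB`, `S_FW`): on the line. Proof. Let `θ' = min θ (1/2)`, `δ = (a - θ')/4` (or `a/4`, `≤ 1/2`). For `Re z ≥ δ`: `S_FW` with
`σ = 0`, `ε = δ`. For `0 < x < δ`, `z = x + I T`: `‖f (z - a)‖ = ‖f (a - x + I T)‖` (`sym`), and
`log ‖f (a + x + I T)‖ - log ‖f (a - x + I T)‖ = ∫_{a-x}^{a+x} Re (logDeriv f (y + I T)) dy > 0`, because on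
`[a - δ, a + δ]` (`≥ θ' + δ`) `logDeriv f = l T + O(EE)` (`DS.S_LB`, third part; `Re z > 3`: `DS.S_RT`). So `‖f (z + a)‖ > ‖f (z - a)‖`. -/
def S_LI : Prop := ∀ (ϑ : ℝ) (f : ℂ → ℂ) (l g : ℝ → ℝ), Rl ϑ f l g → ∀ (a θ T1 : ℝ) (u : ℂ), 0 ≤ θ → θ < a → ‖u‖ = 1 →
  (∀ z : ℂ, θ < z.re → T1 ≤ z.im → f z ≠ 0) → ∃ T2 : ℝ, ∀ z : ℂ, 0 < z.re → z.re ≤ 2 → T2 ≤ z.im → Fa f a u z ≠ 0

/-- JOB DD (from `S_BW`, `S_FW`): the dictionary. Proof. Contrapositive (`C` larger by a constant; `|w.im - z.im| ≤ C l z.im`). -/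
def S_DD : Prop := ∀ (ϑ : ℝ) (f : ℂ → ℂ) (l g : ℝ → ℝ), Rl ϑ f l g → ∀ (a ε : ℝ) (u : ℂ), 0 < a → 0 < ε → ‖u‖ = 1 →
  ∃ C : ℝ, 1 ≤ C ∧
  (u ≠ -cexp (2 * I * ((ϑ * a : ℝ) : ℂ)) → ∀ (z : ℂ) (σ : ℝ), f z = 0 → C ≤ z.im → 0 ≤ σ → σ + a + ε ≤ z.re →
    ∃ w : ℂ, Fa f a u w = 0 ∧ σ < w.re ∧ w.re ≤ 2 ∧ |w.im - z.im| ≤ C * l z.im) ∧
  ∀ (z : ℂ) (σ : ℝ), Fa f a u z = 0 → C ≤ z.im → 0 ≤ σ → σ + ε ≤ z.re → z.re ≤ 2 →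
    ∃ w : ℂ, f w = 0 ∧ σ + a < w.re ∧ |w.im - z.im| ≤ C

end Pool.Agent.Q260.DT
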